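import Pool.Agent.Y476.NA.Stm

/-!
Decomposition with the theorem of Baire (task BC of the project NA).
-/

set_option autoImplicit false

namespace Pool.Agent.Y151.NA.BC

open MeasureTheory Filter Set Pool.Agent.Y476.NA
open scoped Pointwise

/-- the essential part of a compact set of positive measure -/
theorem exists_ess (Q : ℕ → Set ℝ) (hQ : ∀ n, IsOpen (Q n)) {P0 : Set ℝ} (hP0 : IsCompact P0)
    (hpos : 0 < volume P0) : ∃ P : Set ℝ, IsCompact P ∧ P ⊆ P0 ∧ 0 < volume P ∧
      ∀ n, (P ∩ Q n).Nonempty → 0 < volume (P ∩ Q n) := by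
  let U : Set ℝ := ⋃ n ∈ {n : ℕ | volume (P0 ∩ Q n) = 0}, Q n
  have hU : IsOpen U := isOpen_biUnion fun n _ => hQ n
  have hnull : volume (P0 ∩ U) = 0 := by
    have h1 : P0 ∩ U ⊆ ⋃ n ∈ {n : ℕ | volume (P0 ∩ Q n) = 0}, P0 ∩ Q n := by
      rintro z ⟨hz, hzU⟩
      simp only [U, mem_iUnion] at hzU ⊢
      obtain ⟨n, hn, hzn⟩ := hzU
      exact ⟨n, hn, hz, hzn⟩
    refine measure_mono_null h1 ?_
    rw [measure_biUnion_null_iff (Set.to_countable _)]
    intro n hn
    exact hn
  have hdiff : ∀ A : Set ℝ, A ⊆ P0 → volume (A \ U) = volume A := by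
    intro A hA
    apply le_antisymm (measure_mono diff_subset)
    calc volume A ≤ volume ((A \ U) ∪ (P0 ∩ U)) := by
          apply measure_mono
          intro z hz
          by_cases h : z ∈ U
          · exact Or.inr ⟨hA hz, h⟩
          · exact Or.inl ⟨hz, h⟩
      _ ≤ volume (A \ U) + volume (P0 ∩ U) := measure_union_le _ _
      _ = volume (A \ U) := by rw [hnull, add_zero]
  refine ⟨P0 \ U, hP0.diff hU, diff_subset, ?_, ?_⟩
  · rw [hdiff P0 subset_rfl]
    exact hpos
  · rintro n ⟨z, ⟨hz, hzU⟩, hzn⟩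
    have h1 : volume (P0 ∩ Q n) ≠ 0 := by
      intro h
      apply hzU
      simp only [U, mem_iUnion]
      exact ⟨n, h, hzn⟩
    have h2 : (P0 \ U) ∩ Q n = (P0 ∩ Q n) \ U := by
      ext w
      simp only [mem_inter_iff, mem_diff]
      tauto
    rw [h2, hdiff _ inter_subset_left]
    exact pos_iff_ne_zero.2 h1

theorem t : S_BC := by
  intro H hH X hX
  set M : Set ℝ := X + {z : ℝ | ∃ᶠ k in atTop, z ∈ H k} with hM
  have hA : MeasurableSet (Ioo (0 : ℝ) 1 \ toMeasurable volume M) :=
    measurableSet_Ioo.diff (measurableSet_toMeasurable _ _)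
  have hApos : 0 < volume (Ioo (0 : ℝ) 1 \ toMeasurable volume M) := by
    have h1 : volume (toMeasurable volume M) = 0 := by rw [measure_toMeasurable, hX]
    rw [measure_diff_null h1, Real.volume_Ioo]
    simp
  obtain ⟨P0, hP0A, hP0c, hP0pos⟩ := hA.exists_lt_isCompact hApos
  obtain ⟨Bs, hBc, -, hB⟩ := TopologicalSpace.exists_countable_basis ℝ
  have hBne : Bs.Nonempty := by
    obtain ⟨u, hu, -⟩ := hB.exists_subset_of_mem_open (mem_univ (0 : ℝ)) isOpen_univ
    exact ⟨u, hu⟩
  obtain ⟨Q, hQ⟩ := hBc.exists_eq_range hBne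
  have hQo : ∀ n, IsOpen (Q n) := fun n => hB.isOpen (by rw [hQ]; exact mem_range_self n)
  obtain ⟨P', hP'c, hP'0, hP'pos, hP'⟩ := exists_ess Q hQo hP0c hP0pos
  classical
  let P : ℕ → Set ℝ := fun n => if (P' ∩ Q n).Nonempty then P' ∩ Q n else P'
  have hPsub : ∀ n, P n ⊆ P' := by
    intro n
    by_cases h : (P' ∩ Q n).Nonempty
    · simp only [P, if_pos h]
      exact inter_subset_left
    · simp only [P, if_neg h]
      exact subset_rfl
  refine ⟨P, fun n => ⟨((hPsub n).trans hP'0).trans (hP0A.trans diff_subset), ?_⟩, ?_⟩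
  · by_cases h : (P' ∩ Q n).Nonempty
    · simp only [P, if_pos h]
      exact hP' n h
    · simp only [P, if_neg h]
      exact hP'pos
  · intro x hx
    have hne : P'.Nonempty := by
      rw [nonempty_iff_ne_empty]
      rintro h
      rw [h, measure_empty] at hP'pos
      exact lt_irrefl _ hP'pos
    have : CompactSpace P' := isCompact_iff_compactSpace.1 hP'c
    have : Nonempty P' := hne.to_subtype
    let f : ℕ → Set P' := fun m => {z | ∀ k ≥ m, (z : ℝ) - x ∉ H k}
    have hcl : ∀ m, IsClosed (f m) := by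
      intro m
      have h1 : f m = ⋂ k, ⋂ (_ : k ≥ m), {z : P' | (z : ℝ) - x ∈ (H k)ᶜ} := by
        ext z
        simp only [f, mem_setOf_eq, mem_iInter, mem_compl_iff]
      rw [h1]
      refine isClosed_iInter fun k => isClosed_iInter fun _ => ?_
      exact (hH k).isClosed_compl.preimage (continuous_subtype_val.sub continuous_const)
    have hun : ⋃ m, f m = univ := by
      rw [eq_univ_iff_forall]
      intro z
      have hz : (z : ℝ) ∉ M := by
        intro h
        exact (hP0A (hP'0 z.2)).2 (subset_toMeasurable _ _ h)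
      have h1 : ¬ ∃ᶠ k in atTop, (z : ℝ) - x ∈ H k := by
        intro h
        apply hz
        rw [hM]
        refine ⟨x, hx, (z : ℝ) - x, h, ?_⟩
        change x + ((z : ℝ) - x) = z
        ring
      rw [not_frequently, eventually_atTop] at h1
      obtain ⟨m, hm⟩ := h1
      exact mem_iUnion.2 ⟨m, hm⟩
    obtain ⟨m, ⟨z0, hz0⟩⟩ := nonempty_interior_of_iUnion_of_closed hcl hun
    obtain ⟨U, hU, hUz⟩ := isOpen_induced_iff.1 (isOpen_interior (s := f m))
    have hz0U : (z0 : ℝ) ∈ U := by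
      have : z0 ∈ (Subtype.val ⁻¹' U : Set P') := by rw [hUz]; exact hz0
      exact this
    obtain ⟨V, hV, hzV, hVU⟩ := hB.exists_subset_of_mem_open hz0U hU
    rw [hQ] at hV
    obtain ⟨n, rfl⟩ := hV
    refine ⟨n, m, fun k hk z hz => ?_⟩
    have hne2 : (P' ∩ Q n).Nonempty := ⟨z0, z0.2, hzV⟩
    simp only [P, if_pos hne2] at hz
    have h2 : (⟨z, hz.1⟩ : P') ∈ interior (f m) := by
      rw [← hUz]
      exact hVU hz.2
    exact interior_subset h2 k hk

end Pool.Agent.Y151.NA.BC
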