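import Pool.Agent.Y476.NA.Stm

/-!
Null sets of the plane and squares (task CB of the project NA).
-/

set_option autoImplicit false

namespace Pool.Agent.Y151.NA.CB

open MeasureTheory Filter Set Pool.Agent.Y476.NA
open scoped Pointwise ENNReal NNReal

/-- a null set is covered by squares of small total area -/
theorem step {N : Set (ℝ × ℝ)} (hN : volume N = 0) {ε : ℝ≥0∞} (hε : 0 < ε) :
    ∃ (c : ℕ → ℝ × ℝ) (r : ℕ → ℝ≥0), (∀ n, 0 < r n) ∧ (∑' n, ((r n ^ 2 : ℝ≥0) : ℝ≥0∞)) ≤ ε ∧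
      ∀ z ∈ N, ∃ n, dist z (c n) ≤ r n := by
  have h1 : Measure.hausdorffMeasure (X := ℝ × ℝ) 2 N = 0 := by
    rw [hausdorffMeasure_prod_real, hN]
  rw [Measure.hausdorffMeasure_apply] at h1
  have h2 : ⨅ (t : ℕ → Set (ℝ × ℝ)) (_ : N ⊆ ⋃ n, t n) (_ : ∀ n, Metric.ediam (t n) ≤ 1),
      ∑' n, ⨆ _ : (t n).Nonempty, Metric.ediam (t n) ^ (2 : ℝ) = 0 := by
    apply le_antisymm _ (zero_le)
    rw [← h1]
    exact le_iSup₂ (f := fun (r : ℝ≥0∞) (_ : 0 < r) =>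
      ⨅ (t : ℕ → Set (ℝ × ℝ)) (_ : N ⊆ ⋃ n, t n) (_ : ∀ n, Metric.ediam (t n) ≤ r),
        ∑' n, ⨆ _ : (t n).Nonempty, Metric.ediam (t n) ^ (2 : ℝ)) 1 zero_lt_one
  have hε2 : 0 < ε / 2 := ENNReal.div_pos hε.ne' (by norm_num)
  rw [← h2] at hε2
  simp only [iInf_lt_iff] at hε2
  obtain ⟨t, ht, hd, hs⟩ := hε2
  have hε3 : ε / 2 ≠ 0 := (ENNReal.div_pos hε.ne' (by norm_num)).ne'
  obtain ⟨δ, hδ, hδs⟩ := ENNReal.exists_pos_sum_of_countable hε3 ℕ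
  have hne : ∀ n, Metric.ediam (t n) ≠ ⊤ := fun n => ((hd n).trans_lt ENNReal.one_lt_top).ne
  let a : ℕ → ℝ≥0 := fun n => (Metric.ediam (t n)).toNNReal
  have ha : ∀ n, (a n : ℝ≥0∞) = Metric.ediam (t n) := fun n => ENNReal.coe_toNNReal (hne n)
  classical
  let c : ℕ → ℝ × ℝ := fun n => if h : (t n).Nonempty then h.some else 0
  let r : ℕ → ℝ≥0 := fun n => NNReal.sqrt (a n ^ 2 + δ n)
  have hr2 : ∀ n, r n ^ 2 = a n ^ 2 + δ n := fun n => NNReal.sq_sqrt _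
  have har : ∀ n, a n ≤ r n := by
    intro n
    change a n ≤ NNReal.sqrt (a n ^ 2 + δ n)
    rw [NNReal.le_sqrt_iff_sq_le]
    exact le_self_add
  refine ⟨c, r, ?_, ?_, ?_⟩
  · intro n
    change 0 < NNReal.sqrt (a n ^ 2 + δ n)
    rw [NNReal.sqrt_pos]
    exact lt_of_lt_of_le (hδ n) le_add_self
  · have h3 : ∀ n, ((r n ^ 2 : ℝ≥0) : ℝ≥0∞) ≤
        (⨆ _ : (t n).Nonempty, Metric.ediam (t n) ^ (2 : ℝ)) + (δ n : ℝ≥0∞) := by
      intro n
      rw [hr2, ENNReal.coe_add]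
      gcongr
      by_cases h : (t n).Nonempty
      · refine le_trans (le_of_eq ?_) (le_iSup (fun _ : (t n).Nonempty =>
          Metric.ediam (t n) ^ (2 : ℝ)) h)
        rw [ENNReal.coe_pow, ha, ← ENNReal.rpow_natCast]
        norm_num
      · rw [not_nonempty_iff_eq_empty] at h
        have h4 : a n = 0 := by
          change (Metric.ediam (t n)).toNNReal = 0
          rw [h, Metric.ediam_empty]
          rfl
        rw [h4]
        simp
    calc (∑' n, ((r n ^ 2 : ℝ≥0) : ℝ≥0∞))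
        ≤ ∑' n, ((⨆ _ : (t n).Nonempty, Metric.ediam (t n) ^ (2 : ℝ)) + (δ n : ℝ≥0∞)) :=
          ENNReal.tsum_le_tsum h3
      _ = (∑' n, ⨆ _ : (t n).Nonempty, Metric.ediam (t n) ^ (2 : ℝ)) + ∑' n, (δ n : ℝ≥0∞) :=
          ENNReal.tsum_add
      _ ≤ ε / 2 + ε / 2 := by
          have h5 : (∑' n, ⨆ _ : (t n).Nonempty, Metric.ediam (t n) ^ (2 : ℝ)) < ε / 2 := by
            exact hs
          exact add_le_add h5.le hδs.le
      _ = ε := ENNReal.add_halves ε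
  · intro z hz
    obtain ⟨n, hn⟩ := mem_iUnion.1 (ht hz)
    refine ⟨n, ?_⟩
    have hne' : (t n).Nonempty := ⟨z, hn⟩
    have hc : c n ∈ t n := by
      simp only [c, dif_pos hne']
      exact hne'.some_mem
    have h3 : edist z (c n) ≤ (a n : ℝ≥0∞) := by
      rw [ha]
      exact Metric.edist_le_ediam_of_mem hn hc
    have h4 : nndist z (c n) ≤ a n := by
      rw [edist_nndist] at h3
      exact_mod_cast h3
    have h5 : nndist z (c n) ≤ r n := h4.trans (har n)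
    rw [dist_nndist]
    exact_mod_cast h5

theorem t : S_CB := by
  intro N hN
  have h1 : ∀ j : ℕ, ∃ (c : ℕ → ℝ × ℝ) (r : ℕ → ℝ≥0), (∀ n, 0 < r n) ∧
      (∑' n, ((r n ^ 2 : ℝ≥0) : ℝ≥0∞)) ≤ (2⁻¹ : ℝ≥0∞) ^ j ∧ ∀ z ∈ N, ∃ n, dist z (c n) ≤ r n :=
    fun j => step hN (ENNReal.pow_pos (by norm_num) j)
  choose c r hr hs hc using h1
  refine ⟨fun i => c (Nat.unpair i).1 (Nat.unpair i).2,
    fun i => (r (Nat.unpair i).1 (Nat.unpair i).2 : ℝ), fun i => ?_, ?_, ?_⟩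
  · exact_mod_cast hr _ _
  · have h2 : Summable (fun p : ℕ × ℕ => r p.1 p.2 ^ 2) := by
      rw [← ENNReal.tsum_coe_ne_top_iff_summable, ENNReal.tsum_prod']
      have h3 : ∑' a, ∑' b, ((r a b ^ 2 : ℝ≥0) : ℝ≥0∞) ≤ ∑' a : ℕ, (2⁻¹ : ℝ≥0∞) ^ a :=
        ENNReal.tsum_le_tsum hs
      refine ne_top_of_le_ne_top ?_ h3
      rw [ENNReal.tsum_geometric]
      norm_num
    have h4 : Summable (fun i : ℕ => r (Nat.unpair i).1 (Nat.unpair i).2 ^ 2) :=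
      (Nat.pairEquiv.symm.summable_iff (f := fun p : ℕ × ℕ => r p.1 p.2 ^ 2)).2 h2
    have h5 := NNReal.summable_coe.2 h4
    refine h5.congr fun i => ?_
    push_cast
    rfl
  · intro z hz
    rw [frequently_atTop]
    intro a
    obtain ⟨n, hn⟩ := hc a z hz
    refine ⟨Nat.pair a n, Nat.left_le_pair a n, ?_⟩
    change dist z (c (Nat.unpair (Nat.pair a n)).1 (Nat.unpair (Nat.pair a n)).2) ≤
      (r (Nat.unpair (Nat.pair a n)).1 (Nat.unpair (Nat.pair a n)).2 : ℝ)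
    rw [Nat.unpair_pair]
    exact hn

end Pool.Agent.Y151.NA.CB
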