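import Pool.Agent.Y476.NA.Stm

/-!
Measure of the set missed by many translates (task CV of the project NA).
-/

set_option autoImplicit false

namespace Pool.Agent.Y151.NA.CV

open MeasureTheory Filter Set Pool.Agent.Y476.NA
open scoped Pointwise ENNReal NNReal

/-- the number of good residues, for a fixed phase -/
theorem count_one {b q L : ℕ} {J : Set ℤ} (hcov : Cov b q L J) {E : ℝ} {F : Finset ℝ}
    (hF : ∀ x ∈ F, ∀ y ∈ F, x ≠ y → ¬ (b : ℤ) ∣ ⌊x * E⌋ - ⌊y * E⌋)
    (hL : 2 * L ≤ F.card) {φ : ℝ} (h0 : 0 ≤ φ) (h1 : φ < 1) :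
    q * {I : ℤ | 0 ≤ I ∧ I < b ∧ ∀ x ∈ F, ⌊(I : ℝ) + φ - x * E⌋ ∉ J}.ncard ≤ b := by
  classical
  have key : ∀ F' : Finset ℝ, F' ⊆ F → ∀ e : ℤ, (∀ x ∈ F', ⌊φ - x * E⌋ = -(⌊x * E⌋ + e)) →
      L ≤ F'.card → q * {I : ℤ | 0 ≤ I ∧ I < b ∧ ∀ x ∈ F, ⌊(I : ℝ) + φ - x * E⌋ ∉ J}.ncard ≤ b := by
    intro F' hF' e he hL'
    let T : Finset ℤ := F'.image fun x => ⌊x * E⌋ + e
    have hinj : Set.InjOn (fun x => ⌊x * E⌋ + e) (F' : Set ℝ) := by
      intro x hx y hy hxy
      by_contra hne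
      apply hF x (hF' hx) y (hF' hy) hne
      have : ⌊x * E⌋ + e = ⌊y * E⌋ + e := hxy
      have h3 : ⌊x * E⌋ - ⌊y * E⌋ = 0 := by omega
      rw [h3]
      exact dvd_zero _
    have hT : T.card = F'.card := Finset.card_image_of_injOn hinj
    have h2 := hcov T (by
      intro s hs u hu hsu
      obtain ⟨x, hx, rfl⟩ := Finset.mem_image.1 hs
      obtain ⟨y, hy, rfl⟩ := Finset.mem_image.1 hu
      have hne : x ≠ y := by
        rintro rfl
        exact hsu rfl
      have h3 := hF x (hF' hx) y (hF' hy) hne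
      have h4 : ⌊x * E⌋ + e - (⌊y * E⌋ + e) = ⌊x * E⌋ - ⌊y * E⌋ := by ring
      rwa [h4]) (by rw [hT]; exact hL')
    refine le_trans (Nat.mul_le_mul_left q ?_) h2
    apply Set.ncard_le_ncard
    · rintro I ⟨hI0, hI1, hI⟩
      refine ⟨hI0, hI1, fun u hu => ?_⟩
      obtain ⟨x, hx, rfl⟩ := Finset.mem_image.1 hu
      have h3 := hI x (hF' hx)
      have h4 : (I : ℝ) + φ - x * E = (I : ℝ) + (φ - x * E) := by ring
      rw [h4, Int.floor_intCast_add, he x hx] at h3
      rw [sub_eq_add_neg]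
      exact h3
    · refine (Set.finite_Ico (0 : ℤ) b).subset ?_
      rintro I ⟨hI0, hI1, -⟩
      exact ⟨hI0, hI1⟩
  have hfl : ∀ x : ℝ, ⌊φ - x * E⌋ = -(⌊x * E⌋ + 0) ∨ ⌊φ - x * E⌋ = -(⌊x * E⌋ + 1) := by
    intro x
    have h2 := Int.floor_le (x * E)
    have h3 := Int.lt_floor_add_one (x * E)
    have h4 := Int.floor_le (φ - x * E)
    have h5 := Int.lt_floor_add_one (φ - x * E)
    have h6 : (-⌊x * E⌋ : ℝ) - 1 < (⌊φ - x * E⌋ : ℝ) + 1 := by linarith
    have h7 : (⌊φ - x * E⌋ : ℝ) < -⌊x * E⌋ + 1 := by linarith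
    have h8 : -⌊x * E⌋ - 1 < ⌊φ - x * E⌋ + 1 := by exact_mod_cast h6
    have h9 : ⌊φ - x * E⌋ < -⌊x * E⌋ + 1 := by exact_mod_cast h7
    omega
  have hcard := Finset.card_filter_add_card_filter_not (s := F)
    (fun x => ⌊φ - x * E⌋ = -(⌊x * E⌋ + 0))
  rcases le_total L (F.filter fun x => ⌊φ - x * E⌋ = -(⌊x * E⌋ + 0)).card with h | h
  · exact key _ (Finset.filter_subset _ _) 0 (fun x hx => (Finset.mem_filter.1 hx).2) h
  · refine key (F.filter fun x => ¬ ⌊φ - x * E⌋ = -(⌊x * E⌋ + 0)) (Finset.filter_subset _ _) 1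
      (fun x hx => ?_) (by omega)
    exact (hfl x).resolve_left (Finset.mem_filter.1 hx).2

/-- periodic conditions -/
theorem count_per {b q : ℕ} (p : ℤ → Prop) [DecidablePred p] (hp : ∀ I, p (I + b) ↔ p I)
    (h : q * {I : ℤ | 0 ≤ I ∧ I < b ∧ p I}.ncard ≤ b) (D : ℕ) :
    q * ((Finset.range (D * b)).filter fun i : ℕ => p i).card ≤ D * b := by
  have h1 : {I : ℤ | 0 ≤ I ∧ I < b ∧ p I}.ncard = ((Finset.range b).filter fun i : ℕ => p i).card := by
    rw [← Set.ncard_coe_finset]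
    have h2 : {I : ℤ | 0 ≤ I ∧ I < b ∧ p I} =
        (fun i : ℕ => (i : ℤ)) '' (((Finset.range b).filter fun i : ℕ => p i : Finset ℕ) : Set ℕ) := by
      ext I
      simp only [Set.mem_image, Finset.coe_filter, Finset.mem_range, Set.mem_setOf_eq]
      constructor
      · rintro ⟨h3, h4, h5⟩
        obtain ⟨i, rfl⟩ := Int.eq_ofNat_of_zero_le h3
        exact ⟨i, ⟨by exact_mod_cast h4, h5⟩, rfl⟩
      · rintro ⟨i, ⟨h3, h4⟩, rfl⟩
        exact ⟨by positivity, by exact_mod_cast h3, h4⟩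
    rw [h2, Set.ncard_image_of_injective _ Nat.cast_injective]
  rw [h1] at h
  have h3 : ∀ n : ℕ, (((Finset.Ico n (n + b)).filter fun i : ℕ => p i).card) =
      Nat.count (fun i : ℕ => p i) b := by
    intro n
    apply Nat.filter_Ico_card_eq_of_periodic
    intro i
    have := hp (i : ℤ)
    simp only [Nat.cast_add, this]
  have h4 : ((Finset.range b).filter fun i : ℕ => p i).card = Nat.count (fun i : ℕ => p i) b :=
    (Nat.count_eq_card_filter_range _ _).symm
  induction D with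
  | zero => simp
  | succ D ih =>
    have h5 : Finset.range ((D + 1) * b) = Finset.range (D * b) ∪ Finset.Ico (D * b) (D * b + b) := by
      ext i
      simp only [Finset.mem_range, Finset.mem_union, Finset.mem_Ico]
      have : (D + 1) * b = D * b + b := by ring
      omega
    rw [h5, Finset.filter_union]
    calc q * _ ≤ q * (((Finset.range (D * b)).filter fun i : ℕ => p i).card +
          ((Finset.Ico (D * b) (D * b + b)).filter fun i : ℕ => p i).card) :=
          Nat.mul_le_mul_left q (Finset.card_union_le _ _)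
      _ = q * ((Finset.range (D * b)).filter fun i : ℕ => p i).card +
          q * ((Finset.range b).filter fun i : ℕ => p i).card := by
          rw [h3, h4]
          ring
      _ ≤ D * b + b := add_le_add ih h
      _ = (D + 1) * b := by ring

theorem t : S_CV := by
  intro D b q L J hD hb hq hJ hcov F hF hL
  classical
  set E : ℕ := D * b with hE
  have hE0 : 0 < E := Nat.mul_pos hD hb
  have hEr : (0 : ℝ) < (E : ℝ) := by exact_mod_cast hE0
  let Z : Set ℝ := {z | ∀ x ∈ F, ⌊(z - x) * E⌋ ∉ J}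
  have hZm : MeasurableSet Z := by
    have h1 : Z = ⋂ x ∈ F, {z : ℝ | ⌊(z - x) * E⌋ ∈ Jᶜ} := by
      ext z
      simp only [Z, Set.mem_setOf_eq, Set.mem_iInter, Set.mem_compl_iff]
    rw [h1]
    refine Finset.measurableSet_biInter _ fun x _ => ?_
    have h2 : Measurable fun z : ℝ => ⌊(z - x) * E⌋ :=
      Int.measurable_floor.comp ((measurable_id.sub_const x).mul_const _)
    exact h2 (MeasurableSet.of_discrete (s := Jᶜ))
  -- the exceptional countable set
  let N : Set ℝ := ⋃ x ∈ F, Set.range fun n : ℤ => x + (n : ℝ) / E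
  have hN : volume N = 0 := by
    apply Set.Countable.measure_zero
    exact F.countable_toSet.biUnion fun x _ => Set.countable_range _
  have hsub : {z : ℝ | z ∈ Ioo 0 1 ∧ ∀ x ∈ F, z - x ∉ Hs E J} ⊆ (Z ∩ Ico 0 1) ∪ N := by
    rintro z ⟨hz, hzF⟩
    by_cases h : z ∈ N
    · exact Or.inr h
    · left
      refine ⟨fun x hx hJ' => ?_, hz.1.le, hz.2⟩
      apply hzF x hx
      refine ⟨fun n hn => ?_, hJ'⟩
      apply h
      simp only [N, Set.mem_iUnion, Set.mem_range]
      refine ⟨x, hx, n, ?_⟩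
      rw [← hn]
      field_simp
      ring
  refine (measure_mono hsub).trans ((measure_union_le _ _).trans ?_)
  rw [hN, add_zero]
  -- decomposition of the unit interval
  set μ : Measure ℝ := volume.restrict (Ico (0 : ℝ) (1 / E)) with hμ
  let A : ℕ → Set ℝ := fun i => {t | (i : ℝ) / E + t ∈ Z}
  have hAm : ∀ i, MeasurableSet (A i) := fun i => hZm.preimage (measurable_const_add _)
  have hpiece : ∀ i : ℕ, volume (Z ∩ Ico ((i : ℝ) / E) ((i + 1 : ℝ) / E)) = μ (A i) := by
    intro i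
    rw [hμ, Measure.restrict_apply (hAm i), ← measure_preimage_add volume ((i : ℝ) / E)]
    congr 1
    ext t
    simp only [Set.mem_preimage, Set.mem_inter_iff, Set.mem_Ico, A, Set.mem_setOf_eq]
    have h1 : (i + 1 : ℝ) / E = (i : ℝ) / E + 1 / E := by ring
    rw [h1]
    constructor
    · rintro ⟨h2, h3, h4⟩
      exact ⟨h2, by linarith, by linarith⟩
    · rintro ⟨h2, h3, h4⟩
      exact ⟨h2, by linarith, by linarith⟩
  have hcover : Z ∩ Ico 0 1 ⊆ ⋃ i ∈ Finset.range E, Z ∩ Ico ((i : ℝ) / E) ((i + 1 : ℝ) / E) := by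
    rintro z ⟨hz, hz0, hz1⟩
    have h1 : 0 ≤ z * E := mul_nonneg hz0 hEr.le
    have h2 := Nat.floor_le h1
    have h3 := Nat.lt_floor_add_one (z * E)
    simp only [Set.mem_iUnion, Finset.mem_range]
    refine ⟨⌊z * E⌋₊, ?_, hz, ?_, ?_⟩
    · have h4 : (⌊z * E⌋₊ : ℝ) < (E : ℝ) := by nlinarith
      exact_mod_cast h4
    · rw [div_le_iff₀ hEr]
      exact h2
    · rw [lt_div_iff₀ hEr]
      exact h3
  have hbound : ∀ t ∈ Ico (0 : ℝ) (1 / E),
      ∑ i ∈ Finset.range E, (A i).indicator (1 : ℝ → ℝ≥0∞) t ≤ (E : ℝ≥0∞) / q := by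
    intro t ht
    have hφ0 : 0 ≤ t * E := mul_nonneg ht.1 hEr.le
    have hφ1 : t * E < 1 := by
      have := ht.2
      rwa [lt_div_iff₀ hEr] at this
    have h1 := count_one (φ := t * E) hcov hF hL hφ0 hφ1
    have hmem : ∀ i : ℕ, t ∈ A i ↔ ∀ x ∈ F, ⌊((i : ℤ) : ℝ) + t * E - x * (E : ℝ)⌋ ∉ J := by
      intro i
      have h2 : ∀ x : ℝ, ((i : ℝ) / E + t - x) * E = ((i : ℤ) : ℝ) + t * E - x * (E : ℝ) := by
        intro x
        push_cast
        field_simp
      simp only [A, Z, Set.mem_setOf_eq, h2]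
    have h3 := count_per (q := q)
      (fun I : ℤ => ∀ x ∈ F, ⌊(I : ℝ) + t * E - x * (E : ℝ)⌋ ∉ J) (by
        intro I
        have h4 : ∀ x : ℝ, ⌊((I + b : ℤ) : ℝ) + t * E - x * (E : ℝ)⌋ =
            ⌊(I : ℝ) + t * E - x * (E : ℝ)⌋ + b := by
          intro x
          rw [← Int.floor_add_natCast]
          congr 1
          push_cast
          ring
        simp only [h4]
        constructor
        · intro h5 x hx h6
          exact h5 x hx ((hJ _).2 h6)
        · intro h5 x hx h6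
          exact h5 x hx ((hJ _).1 h6)) h1 D
    rw [← hE] at h3
    have h5 : ∑ i ∈ Finset.range E, (A i).indicator (1 : ℝ → ℝ≥0∞) t =
        (((Finset.range E).filter fun i : ℕ => ∀ x ∈ F,
          ⌊((i : ℤ) : ℝ) + t * E - x * (E : ℝ)⌋ ∉ J).card : ℝ≥0∞) := by
      rw [Finset.card_filter]
      push_cast
      refine Finset.sum_congr rfl fun i _ => ?_
      by_cases h6 : t ∈ A i
      · rw [Set.indicator_of_mem h6]
        have h7 := (hmem i).1 h6
        push_cast at h7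
        rw [if_pos h7]
        rfl
      · rw [Set.indicator_of_notMem h6]
        have h7 : ¬ _ := fun h8 => h6 ((hmem i).2 h8)
        push_cast at h7
        rw [if_neg h7]
    rw [h5]
    rw [ENNReal.le_div_iff_mul_le (Or.inl (by exact_mod_cast hq.ne'))
      (Or.inl (ENNReal.natCast_ne_top q)), mul_comm]
    exact_mod_cast h3
  calc volume (Z ∩ Ico 0 1)
      ≤ volume (⋃ i ∈ Finset.range E, Z ∩ Ico ((i : ℝ) / E) ((i + 1 : ℝ) / E)) :=
        measure_mono hcover
    _ ≤ ∑ i ∈ Finset.range E, volume (Z ∩ Ico ((i : ℝ) / E) ((i + 1 : ℝ) / E)) :=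
        measure_biUnion_finset_le _ _
    _ = ∑ i ∈ Finset.range E, μ (A i) := Finset.sum_congr rfl fun i _ => hpiece i
    _ = ∑ i ∈ Finset.range E, ∫⁻ t, (A i).indicator (1 : ℝ → ℝ≥0∞) t ∂μ :=
        Finset.sum_congr rfl fun i _ => (lintegral_indicator_one (hAm i)).symm
    _ = ∫⁻ t, ∑ i ∈ Finset.range E, (A i).indicator (1 : ℝ → ℝ≥0∞) t ∂μ :=
        (lintegral_finset_sum _ fun i _ => measurable_one.indicator (hAm i)).symm
    _ ≤ ∫⁻ _, (E : ℝ≥0∞) / q ∂μ := by
        apply lintegral_mono_ae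
        rw [hμ]
        exact (ae_restrict_iff' measurableSet_Ico).2 (Eventually.of_forall hbound)
    _ = (E : ℝ≥0∞) / q * ENNReal.ofReal (1 / E) := by
        rw [lintegral_const, hμ, Measure.restrict_apply_univ, Real.volume_Ico, sub_zero]
    _ ≤ ENNReal.ofReal (3 / q) := by
        have hqr : (0 : ℝ) < (q : ℝ) := by exact_mod_cast hq
        have h1 : (E : ℝ≥0∞) / q = ENNReal.ofReal ((E : ℝ) / q) := by
          rw [ENNReal.ofReal_div_of_pos hqr, ENNReal.ofReal_natCast, ENNReal.ofReal_natCast]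
        rw [h1, ← ENNReal.ofReal_mul (by positivity)]
        apply ENNReal.ofReal_le_ofReal
        have h2 : (E : ℝ) / q * (1 / E) = 1 / q := by field_simp
        rw [h2]
        gcongr
        norm_num

end Pool.Agent.Y151.NA.CV
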